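import Pool.Agent.Helper31.BQ.Stmts2

/-!
# Affine Baire-one maps: row CL

The space `EE` is closed in the complete separable space `WW`.
-/

set_option autoImplicit false

namespace Pool.Agent.Helper47.BQ

open Pool.Agent.Helper31.BQ
open Filter Topology

section
variable {H : Type} [NormedAddCommGroup H] [InnerProductSpace ℝ H]

/-- coordinates are continuous on `WW` -/
theorem cont_ev (k : ℕ) (g : GG k) :
    Continuous (fun x : WW H => (x : ∀ k, GG k → H) k g) := by
  have h1 : Continuous (fun x : WW H => (x : ∀ k, GG k → H)) :=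
    (lp.uniformContinuous_coe (E := fun k : ℕ => (GG k → H)) (p := 2)).continuous
  exact (continuous_apply g).comp ((continuous_apply k).comp h1)

theorem closed_EE (J : ℕ → H →L[ℝ] H)
    (σ : ∀ k, Fin (2 ^ k) → GG k → ℝ) (τ : ∀ k, Fin (2 ^ (k + 1)) → GG k → ℝ) :
    IsClosed (EE J σ τ : Set (WW H)) := by
  have h0 : (EE J σ τ : Set (WW H)) = ⋂ (k : ℕ), ⋂ (j : Fin (2 ^ (k + 1))),
      {x : WW H | ((2 : ℝ) ^ (k + 2))⁻¹ • ∑ g, τ k j g • J k ((x : ∀ k, GG k → H) k g) =
        ((2 : ℝ) ^ (k + 3))⁻¹ •
          ∑ h, σ (k + 1) j h • J (k + 1) ((x : ∀ k, GG k → H) (k + 1) h)} := by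
    ext x
    simp only [Set.mem_iInter, Set.mem_setOf_eq]
    exact Iff.rfl
  rw [h0]
  refine isClosed_iInter fun k => isClosed_iInter fun j => ?_
  refine isClosed_eq ?_ ?_
  · refine Continuous.const_smul (continuous_finset_sum _ fun g _ => ?_) _
    exact Continuous.const_smul ((J k).continuous.comp (cont_ev k g)) _
  · refine Continuous.const_smul (continuous_finset_sum _ fun g _ => ?_) _
    exact Continuous.const_smul ((J (k + 1)).continuous.comp (cont_ev (k + 1) g)) _

/-- `WW` is separable -/
theorem sep_WW [TopologicalSpace.SeparableSpace H] :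
    TopologicalSpace.IsSeparable (Set.univ : Set (WW H)) := by
  classical
  have h1 : TopologicalSpace.IsSeparable (⋃ k : ℕ, Set.range
      (fun v : GG k → H => (lp.single 2 k v : WW H))) := by
    refine TopologicalSpace.IsSeparable.iUnion fun k => ?_
    exact TopologicalSpace.isSeparable_range
      (lp.isometry_single (E := fun k : ℕ => (GG k → H)) (p := 2) k).continuous
  have h2 : TopologicalSpace.IsSeparable ((Submodule.span ℝ (⋃ k : ℕ, Set.range
      (fun v : GG k → H => (lp.single 2 k v : WW H))) : Submodule ℝ (WW H)) : Set (WW H)) :=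
    h1.span
  refine h2.closure.mono ?_
  intro x _
  have h3 : HasSum (fun k => (lp.single 2 k ((x : ∀ k, GG k → H) k) : WW H)) x :=
    lp.hasSum_single (by simp) x
  refine mem_closure_of_tendsto h3 (Filter.Eventually.of_forall fun s => ?_)
  refine Submodule.sum_mem _ fun k _ => Submodule.subset_span ?_
  exact Set.mem_iUnion.2 ⟨k, Set.mem_range_self _⟩

end

/-- row CL -/
theorem st_CL : ST_CL := by
  intro H _ _ _ _ J σ τ
  have h1 := closed_EE J σ τ
  refine ⟨h1, h1.completeSpace_coe, ?_⟩
  exact ((sep_WW (H := H)).mono (Set.subset_univ (EE J σ τ : Set (WW H)))).separableSpace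

end Pool.Agent.Helper47.BQ
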